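import Pool.Agent.helper13.RF.SpecU

set_option autoImplicit false

/-!
# Row rf:ULQ of MP_16912e_nt (many factors of a prime element in the second point)
-/

namespace Pool.Agent.RF

open NumberField

/-- valuation of a power -/
lemma ULQ_pow (h4 : VVM_stmt) (F : Type) [Field F] [NumberField F] (P : Ideal (𝓞 F)) (hP : P.IsPrime)
    (hP0 : P ≠ ⊥) (x : 𝓞 F) (hx : x ≠ 0) (t : ℕ) : vv P (x ^ t) = t * vv P x := by
  obtain ⟨v1, v2, -⟩ := h4 F P hP hP0
  induction t with
  | zero =>
    rw [pow_zero, Nat.zero_mul]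
    by_contra h
    have h1 : (1 : 𝓞 F) ∈ P := (v2 1 one_ne_zero).1 (Nat.pos_of_ne_zero h)
    exact hP.ne_top ((Ideal.eq_top_iff_one P).2 h1)
  | succ t ih =>
    rw [pow_succ, v1 _ _ (pow_ne_zero _ hx) hx, ih]
    ring

theorem ULQ (h1 : UYE_stmt) (h2 : UPI_stmt) (h3 : UUE_stmt) (h4 : VVM_stmt) (h5 : VV5_stmt) : ULQ_stmt := by
  intro D₀ F _ _ C p q f hp hq hpD hqD hS l π hl hlf hπ hπl hπ2 hπm hn z hz a b hab
  obtain ⟨-, -, -, -, -, -, -, -, -, -, -, hf0, -, hup, -, -, -, -, hinj⟩ := h3 D₀ F C p f hp hpD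
  obtain ⟨-, -, -, -, -, -, -, -, -, -, -, -, -, huq, hnq, -, -, -, -⟩ := h3 D₀ F C q f hq hqD
  obtain ⟨w1, -⟩ := h5 F
  set t := (f.factorization l + 14) / 15 with ht
  have hι0 : ∀ x : OO, x ≠ 0 → C.ι x ≠ 0 := by
    intro x hx h
    exact hx (hinj x 0 (by rw [h, map_zero]))
  have hcan : ∀ c x y : OO, c ≠ 0 → c * x = c * y → x = y := by
    intro c x y hc h
    apply hinj
    have h' : C.ι c * C.ι x = C.ι c * C.ι y := by rw [← map_mul, ← map_mul, h]
    exact mul_left_cancel₀ (hι0 c hc) h'
  have hπ0 : C.ι π ≠ 0 := hι0 π hπ.ne_zero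
  have hfn : f ≠ 0 := by
    rintro rfl
    exact hf0 (by simp)
  have hJ : 1 ≤ f.factorization l := hl.factorization_pos_of_dvd hfn hlf
  have htJ : t ≤ f.factorization l := by omega
  have hσ0 : C.σ (C.σ (uu C f p)) ≠ 0 := by
    intro h
    have h1 : C.σ (uu C f p) = 0 := (map_eq_zero_iff C.σ C.σ.injective).1 h
    exact hup ((map_eq_zero_iff C.σ C.σ.injective).1 h1)
  have hz0 : z ≠ 0 := by
    rintro rfl
    rw [zero_pow (by norm_num)] at hz
    exact mul_ne_zero hσ0 huq hz.symm
  have hdvd : C.ι π ^ t ∣ z := by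
    refine w1 _ _ (pow_ne_zero _ hπ0) hz0 (fun P hP hP0 => ?_)
    obtain ⟨v1, v2, v3⟩ := h4 F P hP hP0
    rw [ULQ_pow h4 F P hP hP0 _ hπ0]
    by_cases hπP : C.ι π ∈ P
    · obtain ⟨π', hπ', he1, hiff, hval⟩ := h2 D₀ F C P hP hP0
      have hd : π' ∣ π := (hiff π).1 hπP
      have hnu : ¬ IsUnit π' := hπ'.not_isUnit
      have hd' : π ∣ π' := by
        obtain ⟨c, hc⟩ := hd
        have h6 : π ∣ π' * c := by rw [← hc]
        rcases hπ.dvd_or_dvd h6 with h7 | ⟨d, h7⟩
        · exact h7
        · exfalso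
          have h8 : π * 1 = π * (π' * d) := by
            rw [mul_one]
            nth_rewrite 1 [hc]
            rw [h7]
            ring
          exact hnu (IsUnit.of_mul_eq_one d (hcan π _ _ hπ.ne_zero h8).symm)
      have e1 : vv P (C.ι π) = vv P (C.ι π') := by
        have := hval π 1 (by rw [pow_one]; exact hd) (by
          intro h
          have h' : π' ^ 2 ∣ π' := h.trans hd'
          obtain ⟨c, hc⟩ := h'
          have h3 : π' * 1 = π' * (π' * c) := by
            rw [mul_one]
            nth_rewrite 1 [hc]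
            ring
          have h4 := hcan π' _ _ hπ'.ne_zero h3
          exact hnu (IsUnit.of_mul_eq_one c h4.symm))
        rw [this, one_mul]
      -- the valuation of f
      obtain ⟨f₁, hf₁⟩ : l ^ f.factorization l ∣ f := Nat.ordProj_dvd f l
      have hf₁l : ¬ l ∣ f₁ := by
        have hh := Nat.not_dvd_ordCompl hl hfn
        have : f / l ^ f.factorization l = f₁ :=
          Nat.div_eq_of_eq_mul_right (pow_pos hl.pos _) hf₁
        rw [this] at hh
        exact hh
      obtain ⟨m, hm⟩ := hπl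
      have hπm' : ¬ π ∣ m := by
        rintro ⟨c, hc⟩
        apply hπ2
        refine ⟨c, ?_⟩
        rw [hm, hc]
        ring
      have hfO : (f : OO) = (l : OO) ^ f.factorization l * (f₁ : OO) := by
        conv_lhs => rw [hf₁]
        push_cast
        rfl
      have ef : vv P ((f : 𝓞 F)) = f.factorization l * vv P (C.ι π') := by
        have hfι : C.ι (f : OO) = (f : 𝓞 F) := map_natCast C.ι f
        rw [← hfι]
        refine hval _ _ ?_ ?_
        · rw [hfO]
          refine Dvd.dvd.mul_right ?_ _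
          exact pow_dvd_pow_of_dvd (hd.trans (Dvd.intro _ hm.symm)) _
        · intro h
          have h' : π ^ (f.factorization l + 1) ∣ (f : OO) := (pow_dvd_pow_of_dvd hd' _).trans h
          rw [hfO, hm] at h'
          obtain ⟨c, hc⟩ := h'
          have h3 : π ^ f.factorization l * (m ^ f.factorization l * (f₁ : OO)) =
              π ^ f.factorization l * (π * c) := by
            rw [mul_pow] at hc
            linear_combination hc
          have hpn : π ^ f.factorization l ≠ 0 := by
            intro h0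
            apply pow_ne_zero (f.factorization l) hπ0
            rw [← map_pow, h0, map_zero]
          have h4 := hcan _ _ _ hpn h3
          have h5 : π ∣ m ^ f.factorization l * (f₁ : OO) := ⟨c, h4⟩
          rcases hπ.dvd_or_dvd h5 with h6 | h6
          · exact hπm' (hπ.dvd_of_dvd_pow h6)
          · apply hf₁l
            have h7 : (l : ℤ) ∣ ((f₁ : ℕ) : ℤ) := hπm (f₁ : ℤ) (by
              have : (((f₁ : ℕ) : ℤ) : OO) = (f₁ : OO) := by push_cast; rfl
              rw [this]
              exact h6)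
            exact_mod_cast h7
      have hlP : (l : 𝓞 F) ∈ P := by
        have h6 : C.ι (l : OO) = (l : 𝓞 F) := map_natCast C.ι l
        rw [← h6, hm, map_mul]
        exact P.mul_mem_right _ hπP
      have hfP : (f : 𝓞 F) ∈ P := by
        obtain ⟨c, hc⟩ := hlf
        rw [hc]
        push_cast
        exact P.mul_mem_right _ hlP
      obtain ⟨-, hyz⟩ := h1 D₀ F C p q f hp hq hpD hqD hS P hP hP0 hfP
      have hnv : t * vv P (C.ι π) ≤ vv P (C.ι q.n) := by
        rw [← ULQ_pow h4 F P hP hP0 _ hπ0, ← map_pow]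
        refine v3 _ _ hnq ?_
        obtain ⟨c, hc⟩ := hn
        rw [hc, map_mul]
        exact dvd_mul_right _ _
      rcases hyz z hz with h | h
      · rw [h]
        exact hnv
      · rw [e1]
        rw [ef] at h
        have h6 : t * vv P (C.ι π') ≤ f.factorization l * vv P (C.ι π') :=
          Nat.mul_le_mul_right _ htJ
        omega
    · have h0 : vv P (C.ι π) = 0 := by
        by_contra h
        exact hπP ((v2 _ hπ0).1 (Nat.pos_of_ne_zero h))
      rw [h0, Nat.mul_zero]
      exact Nat.zero_le _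
  obtain ⟨z', hz'⟩ := hdvd
  obtain ⟨a', b', hab'⟩ := C.co z'
  have hfin : C.ι (a - π ^ t * a') + C.ι (b - π ^ t * b') * C.w = 0 := by
    rw [map_sub, map_sub, map_mul, map_mul, map_pow]
    have h6 : 10 * z = C.ι π ^ t * (10 * z') := by
      rw [hz']
      ring
    rw [hab, hab'] at h6
    linear_combination h6
  have h7 := (C.ind _ _ hfin).2
  exact ⟨b', sub_eq_zero.1 h7⟩

end Pool.Agent.RF
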