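import Pool.Agent.helper95.RF.SpecC

set_option autoImplicit false

namespace Pool.Agent.RF

open Finset NumberField Pool.Agent.helper3.FT

open scoped QuadraticAlgebra

/-- the unit `φ` -/
def CBA_u : OOˣ where
  val := ph
  inv := ph - 1
  val_inv := by
    ext
    · simp [ph]
    · simp [ph]
  inv_val := by
    ext
    · simp [ph]
    · simp [ph]

lemma CBA_zpow (f : OO → ℝ) (h1 : f 1 = 1) (hm : ∀ x y : OO, f (x * y) = f x * f y) (m : ℤ) :
    f ((CBA_u ^ m : OOˣ) : OO) = f ph ^ m := by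
  let F : OO →* ℝ := { toFun := f, map_one' := h1, map_mul' := hm }
  have e1 : (Units.map F (CBA_u ^ m) : ℝ) = f ((CBA_u ^ m : OOˣ) : OO) := rfl
  rw [← e1, map_zpow, Units.val_zpow_eq_zpow_val]
  rfl

theorem CBA (h1 : WVA_stmt) : CBA_stmt := by
  intro g hg
  obtain ⟨hva, hvb, _, hcast, _, hnorm, hne⟩ := h1
  obtain ⟨_, _, ha0, hb0⟩ := hne g hg
  set t : ℝ := (1 + √5) / 2 with ht
  have h5 : √5 ^ 2 = (5 : ℝ) := Real.sq_sqrt (by norm_num)
  have h5a : 2 ≤ √5 := Real.le_sqrt_of_sq_le (by norm_num)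
  have h5b : √5 ≤ 3 := by
    rw [Real.sqrt_le_left (by norm_num)]
    norm_num
  have ht1 : 1 < t := by rw [ht]; linarith
  have ht2 : t ≤ 2 := by rw [ht]; linarith
  have ht0 : 0 < t := by linarith
  have hvph : va ph = t := by simp [va, ph, ht]
  have hbph : vb ph = -t⁻¹ := by
    have : vb ph = (1 - √5) / 2 := by simp [vb, ph]
    rw [this, ht]
    have : (1 + √5) ≠ 0 := by linarith
    field_simp
    nlinarith [h5]
  have hA : 0 < |va g| := abs_pos.2 ha0
  have hB : 0 < |vb g| := abs_pos.2 hb0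
  obtain ⟨n, hn1, hn2⟩ := exists_mem_Ico_zpow (x := t * (|va g| / |vb g|)) (y := t ^ 2)
    (by positivity) (by nlinarith)
  have one_a : va 1 = 1 := by
    have := (hcast 1).1
    simpa using this
  have one_b : vb 1 = 1 := by
    have := (hcast 1).2
    simpa using this
  refine ⟨g * ((CBA_u ^ (-n) : OOˣ) : OO), ⟨CBA_u ^ (-n), rfl⟩, ?_, ?_⟩
  all_goals
    have hnk : (((g * ((CBA_u ^ (-n) : OOˣ) : OO)).norm.natAbs : ℝ)) = |va g| * |vb g| := by
      rw [Nat.cast_natAbs, Int.cast_abs, ← hnorm, hva, hvb, CBA_zpow va one_a hva, CBA_zpow vb one_b hvb, hvph, hbph]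
      rw [show va g * t ^ (-n) * (vb g * (-t⁻¹) ^ (-n)) = va g * vb g * (t * -t⁻¹) ^ (-n) by
        rw [mul_zpow]; ring]
      rw [show t * -t⁻¹ = -1 by field_simp]
      rw [abs_mul, abs_mul, abs_zpow]
      simp
    rw [hnk]
  · rw [hva, CBA_zpow va one_a hva, hvph, mul_pow, ← sq_abs (va g)]
    have e1 : (t ^ (-n)) ^ 2 = ((t ^ 2) ^ n)⁻¹ := by
      rw [← zpow_natCast, ← zpow_natCast, ← zpow_mul, ← zpow_mul, ← zpow_neg]
      congr 1
      push_cast
      ring
    rw [e1]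
    have e2 : (t ^ 2) ^ (n + 1) = (t ^ 2) ^ n * t ^ 2 := by
      rw [zpow_add_one₀ (by positivity)]
    rw [e2] at hn2
    set P : ℝ := (t ^ 2) ^ n with hP
    have hP0 : 0 < P := by positivity
    have h3 : |va g| ≤ t * |vb g| * P := by
      have : t * (|va g| / |vb g|) * |vb g| ≤ P * t ^ 2 * |vb g| :=
        mul_le_mul_of_nonneg_right hn2.le hB.le
      rw [mul_assoc, div_mul_cancel₀ _ hB.ne'] at this
      nlinarith
    calc |va g| ^ 2 * P⁻¹ = |va g| * (|va g| * P⁻¹) := by ring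
      _ ≤ |va g| * (t * |vb g|) := by
        apply mul_le_mul_of_nonneg_left _ hA.le
        rw [mul_inv_le_iff₀ hP0]
        exact h3
      _ ≤ 2 * (|va g| * |vb g|) := by
        have : 0 ≤ |va g| * |vb g| := by positivity
        nlinarith
  · rw [hvb, CBA_zpow vb one_b hvb, hbph, mul_pow, ← sq_abs (vb g)]
    have e1 : ((-t⁻¹) ^ (-n)) ^ 2 = (t ^ 2) ^ n := by
      rw [← zpow_natCast, ← zpow_natCast, ← zpow_mul, ← zpow_mul]
      rw [show -n * ((2 : ℕ) : ℤ) = ((2 : ℕ) : ℤ) * (-n) by ring, zpow_mul, zpow_natCast, neg_sq, inv_pow, inv_zpow,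
        zpow_neg, inv_inv, zpow_mul, zpow_natCast]
    rw [e1]
    set P : ℝ := (t ^ 2) ^ n with hP
    have hP0 : 0 < P := by positivity
    have h3 : |vb g| * P ≤ t * |va g| := by
      have : P * |vb g| ≤ t * (|va g| / |vb g|) * |vb g| :=
        mul_le_mul_of_nonneg_right hn1 hB.le
      rw [mul_assoc, div_mul_cancel₀ _ hB.ne'] at this
      nlinarith
    calc |vb g| ^ 2 * P = |vb g| * (|vb g| * P) := by ring
      _ ≤ |vb g| * (t * |va g|) := mul_le_mul_of_nonneg_left h3 hB.le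
      _ ≤ 2 * (|va g| * |vb g|) := by
        have : 0 ≤ |va g| * |vb g| := by positivity
        nlinarith

end Pool.Agent.RF
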