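import Pool.Agent.helper88.RF.SpecW

set_option autoImplicit false

open Finset

open scoped QuadraticAlgebra

namespace Pool.Agent.RF

lemma WDV_ph2 : ph * star ph = -1 := by
  ext
  · simp [ph]
  · simp [ph]

lemma WDV_norm (x : OO) : ((x.norm : ℤ) : OO) = x * star x := by
  ext
  · simp [QuadraticAlgebra.norm_def]
    ring
  · simp
    ring

lemma WDV_tr (x : OO) : ((trO x : ℤ) : OO) = x + star x := by
  ext
  · simp [trO]
    ring
  · simp [trO]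

/-- the cofactor identity in a commutative ring -/
lemma WDV_key {R : Type*} [CommRing R] (A A' B X n k : R) :
    (-250*A^2*A'*B*X*n^2 - 625*A^2*A'*X^2*k^2 - 500*A^2*B^2*X*n*k - 50*A*A'^3*X*n*k
      + 30*A*A'^2*B^2*n^2 - 50*A*A'^2*B*X*k^2 + 80*A*A'*B^3*n*k + 40*A*B^4*k^2 - 4*A'^5*n^2
      - 10*A'^4*B*n*k - 5*A'^3*B^2*k^2) * (5 * A * n ^ 3 - 2 * A' * n * k ^ 2 + B * k ^ 3)
      + (1250*A^3*B*X*n^2 + 3125*A^3*X^2*k^2 + 250*A^2*A'^2*X*n*k - 150*A^2*A'*B^2*n^2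
      - 750*A^2*A'*B*X*k^2 - 100*A^2*B^3*n*k + 20*A*A'^4*n^2 + 10*A*A'^3*B*n*k
      + 65*A*A'^2*B^2*k^2 - 8*A'^5*k^2) * (A' * n ^ 3 + 2 * B * n ^ 2 * k - 5 * X * k ^ 3)
      = (-(k ^ 4)) * (5 * k) * ((A' * B) ^ 3 + 75 * (A' * B) ^ 2 * (A * X) - 625 * (A' * B) * (A * X) ^ 2
    + 3125 * (A * X) ^ 3 - 8 * (A * B ^ 5 + A' ^ 5 * X)) := by
  ring

lemma WDV_gen {R : Type*} [CommRing R] (h k k' a a' z z' φ φ' Rr : R) (hφ : φ * φ' = -1)
    (hR : Rr = (z * z') ^ 3 - 75 * (z * z') ^ 2 * (a * a') - 625 * (z * z') * (a * a') ^ 2 - 3125 * (a * a') ^ 3 -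
      8 * (φ ^ 3 * a * z' ^ 5 + φ' ^ 3 * a' * z ^ 5))
    (hc : IsCoprime h (5 * (k * k')))
    (h1 : h ∣ 5 * a * k ^ 3 + 2 * φ' * z * k * k' ^ 2 - z' * k' ^ 3)
    (h2 : h ∣ 5 * a' * k' ^ 3 + 2 * φ * z' * k' * k ^ 2 - z * k ^ 3) : h ∣ Rr := by
  have e1 : h ∣ 5 * a * k ^ 3 - 2 * (-(φ' * z)) * k * k' ^ 2 + (-z') * k' ^ 3 := by
    have : 5 * a * k ^ 3 - 2 * (-(φ' * z)) * k * k' ^ 2 + (-z') * k' ^ 3 =
      5 * a * k ^ 3 + 2 * φ' * z * k * k' ^ 2 - z' * k' ^ 3 := by ring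
    rw [this]
    exact h1
  have e2 : h ∣ (-(φ' * z)) * k ^ 3 + 2 * (-z') * k ^ 2 * k' - 5 * (-(φ' * a')) * k' ^ 3 := by
    have : (-(φ' * z)) * k ^ 3 + 2 * (-z') * k ^ 2 * k' - 5 * (-(φ' * a')) * k' ^ 3 =
      φ' * (5 * a' * k' ^ 3 + 2 * φ * z' * k' * k ^ 2 - z * k ^ 3) := by
      linear_combination (-2 * z' * k' * k ^ 2) * hφ
    rw [this]
    exact h2.mul_left _
  have hk5 : IsCoprime h 5 := IsCoprime.of_mul_right_left hc
  have hkk : IsCoprime h (k * k') := IsCoprime.of_mul_right_right hc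
  have hk' : IsCoprime h k' := IsCoprime.of_mul_right_right hkk
  have key := WDV_key a (-(φ' * z)) (-z') (-(φ' * a')) k k'
  have h3 : h ∣ (-(k' ^ 4)) * (5 * k') * (((-(φ' * z)) * (-z')) ^ 3 + 75 * ((-(φ' * z)) * (-z')) ^ 2 * (a * (-(φ' * a')))
      - 625 * ((-(φ' * z)) * (-z')) * (a * (-(φ' * a'))) ^ 2
    + 3125 * (a * (-(φ' * a'))) ^ 3 - 8 * (a * (-z') ^ 5 + (-(φ' * z)) ^ 5 * (-(φ' * a')))) := by
    rw [← key]
    exact dvd_add (e1.mul_left _) (e2.mul_left _)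
  have hRf : ((-(φ' * z)) * (-z')) ^ 3 + 75 * ((-(φ' * z)) * (-z')) ^ 2 * (a * (-(φ' * a')))
      - 625 * ((-(φ' * z)) * (-z')) * (a * (-(φ' * a'))) ^ 2
    + 3125 * (a * (-(φ' * a'))) ^ 3 - 8 * (a * (-z') ^ 5 + (-(φ' * z)) ^ 5 * (-(φ' * a'))) = φ' ^ 3 * Rr := by
    have h33 : φ ^ 3 * φ' ^ 3 = -1 := by
      rw [← mul_pow, hφ]
      ring
    rw [hR]
    linear_combination (8 * a * z' ^ 5) * h33
  rw [hRf] at h3
  have h4 : h ∣ (5 * k' ^ 5) * Rr := by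
    have h33 : φ ^ 3 * φ' ^ 3 = -1 := by
      rw [← mul_pow, hφ]
      ring
    have : (5 * k' ^ 5) * Rr = φ ^ 3 * ((-(k' ^ 4)) * (5 * k') * (φ' ^ 3 * Rr)) := by
      linear_combination (5 * k' ^ 5 * Rr) * h33
    rw [this]
    exact h3.mul_left _
  have hcop : IsCoprime h (5 * k' ^ 5) := IsCoprime.mul_right hk5 (IsCoprime.pow_right hk')
  exact hcop.dvd_of_dvd_mul_left h4

theorem WDV_proof : WDV_stmt := by
  intro h k a z hc hF
  have hF2 : (h : OO) ∣ star (FF k a z) := by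
    obtain ⟨t, ht⟩ := hF
    refine ⟨star t, ?_⟩
    rw [ht]
    simp [mul_comm]
  have hst : star (FF k a z) = 5 * star a * star k ^ 3 + 2 * ph * star z * star k * k ^ 2 - z * k ^ 3 := by
    simp only [FF, star_sub, star_add, star_mul, star_star, star_pow]
    have h5 : star (5 : OO) = 5 := by
      ext
      · simp [QuadraticAlgebra.re_ofNat]
      · simp [QuadraticAlgebra.im_ofNat]
    have h2 : star (2 : OO) = 2 := by
      ext
      · simp [QuadraticAlgebra.re_ofNat]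
      · simp [QuadraticAlgebra.im_ofNat]
    rw [h5, h2]
    ring
  rw [hst] at hF2
  have hR : ((R0 a z : ℤ) : OO) = (z * star z) ^ 3 - 75 * (z * star z) ^ 2 * (a * star a) -
      625 * (z * star z) * (a * star a) ^ 2 - 3125 * (a * star a) ^ 3 -
      8 * (ph ^ 3 * a * star z ^ 5 + star ph ^ 3 * star a * z ^ 5) := by
    simp only [R0]
    push_cast
    rw [WDV_tr, WDV_norm, WDV_norm]
    simp only [star_mul, star_star, star_pow]
    ring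
  have h1 := WDV_gen (h : OO) k (star k) a (star a) z (star z) ph (star ph) ((R0 a z : ℤ) : OO) WDV_ph2 hR hc hF hF2
  obtain ⟨t, ht⟩ := h1
  refine ⟨t.re, ?_⟩
  have := congrArg QuadraticAlgebra.re ht
  simpa using this

end Pool.Agent.RF
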