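import Pool.Agent.helper88.RF.SpecW

set_option autoImplicit false

open Finset

open scoped QuadraticAlgebra

namespace Pool.Agent.RF

lemma WRD_mk (x y : ℤ) : (⟨x, y⟩ : OO) = (x : OO) + (y : OO) * ph := by
  ext
  · simp [ph]
  · simp [ph]

lemma WRD_ph2 : ph ^ 2 = 1 + ph := by
  rw [pow_two]
  ext
  · simp [ph]
  · simp [ph]

lemma WRD_sph : star ph = 1 - ph := by
  ext
  · simp [ph]
  · simp [ph]

lemma WRD_r5 : r5 = 2 * ph - 1 := by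
  ext
  · simp [ph, r5, QuadraticAlgebra.re_ofNat, QuadraticAlgebra.im_ofNat]
  · simp [ph, r5, QuadraticAlgebra.re_ofNat, QuadraticAlgebra.im_ofNat]

lemma WRD_comb (k k' g g' φ r α β γ c x y : OO) 
    (ha : k ^ 3 ∣ g' * (r * α - c) * k' ^ 2 - 2 * φ * c * k ^ 2 * g)
    (hb : k ^ 3 ∣ g' * (r * β - c) * k' ^ 2 - 4 * φ ^ 2 * c * k ^ 2 * g)
    (hc : k ^ 3 ∣ g' * (r * γ + c) * k' ^ 2 - 2 * φ ^ 3 * c * k ^ 2 * g) :
    k ^ 3 ∣ g' * (r * (α * x ^ 2 + β * x * y + γ * y ^ 2) - c * (x ^ 2 + x * y - y ^ 2)) * k' ^ 2 -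
      2 * φ * c * k ^ 2 * g * (x + y * φ) ^ 2 := by
  obtain ⟨A, hA⟩ := ha
  obtain ⟨B, hB⟩ := hb
  obtain ⟨C, hC⟩ := hc
  refine ⟨x ^ 2 * A + x * y * B + y ^ 2 * C, ?_⟩
  linear_combination x ^ 2 * hA + x * y * hB + y ^ 2 * hC

theorem WRD_proof (hWIN : WIN_stmt) : WRD_stmt := by
  intro k g c α β γ hpr h5 hcg hRQ x y s
  obtain ⟨h1, h2, _, h4, _⟩ := hWIN k hpr h5
  obtain ⟨ha, hb, hc⟩ := hRQ
  have key := WRD_comb k (star k) g (star g) ph r5 (α : OO) (β : OO) (γ : OO) (c : OO) (x : OO) (y : OO)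
    ha hb hc
  rw [WRD_mk, ← h4]
  generalize star k = k' at *
  generalize star g = g' at *
  have hcop : IsCoprime (k ^ 3) (g' * r5 * k' ^ 2) := by
    apply IsCoprime.pow_left
    exact IsCoprime.mul_right (IsCoprime.mul_right hcg h2) (IsCoprime.pow_right h1)
  have hdec : g' * (r5 * (s : OO) - (c : OO) * ((x ^ 2 + x * y - y ^ 2 : ℤ) : OO)) * k' ^ 2 -
      2 * ph * (c : OO) * k ^ 2 * g * ((x : OO) + (y : OO) * ph) ^ 2 =
      g' * r5 * k' ^ 2 * ((s - (α * x ^ 2 + β * x * y + γ * y ^ 2) : ℤ) : OO) +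
      (g' * (r5 * ((α : OO) * x ^ 2 + (β : OO) * x * y + (γ : OO) * y ^ 2) -
        (c : OO) * ((x : OO) ^ 2 + x * y - (y : OO) ^ 2)) * k' ^ 2 -
      2 * ph * (c : OO) * k ^ 2 * g * ((x : OO) + (y : OO) * ph) ^ 2) := by
    push_cast
    ring
  rw [hdec, dvd_add_left key]
  constructor
  · intro h
    exact Dvd.dvd.mul_left h _
  · intro h
    exact hcop.dvd_of_dvd_mul_left h

end Pool.Agent.RF
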