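import Pool.Agent.helper33.RF.SpecL
import Pool.Agent.helper61.RF.YDV

set_option autoImplicit false

namespace Pool.Agent.RF

open NumberField

/-- the two identities of `YDV` -/
lemma YDL_ids {D₀ : ℤ} {F : Type} [Field F] [NumberField F] (C : Ctx D₀ F) (p q : Pt) (f : ℕ) (z : 𝓞 F)
    (hz : Zr C f (ct p) p q z) (hzz : z * C.σ (C.σ z) * (ct p : 𝓞 F) ^ 2 = C.ι (p.n * q.n)) (a b : OO)
    (hab : 10 * z = C.ι a + C.ι b * C.w) :
    (∃ v : OO, b * HH (-(w2 * (D₀ : OO))) a b * ((ct p : OO) ^ 5 * (star p.n * star q.n) ^ 2) =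
      (f : OO) * v) ∧
    (a ^ 2 - b ^ 2 * (-(w2 * (D₀ : OO)))) * (ct p : OO) ^ 2 = 100 * (p.n * q.n) := by
  have hww := YDV_ww C
  unfold HH
  set W : OO := -(w2 * (D₀ : OO)) with hW
  refine ⟨?_, ?_⟩
  · set Th := C.σ (C.σ (th C f p)) * th C f q with hTh
    have hR : YDV_R C f Th :=
      YDV_R_mul C f (YDV_R_sigma C f (YDV_R_sigma C f (YDV_R_th C f p))) (YDV_R_th C f q)
    obtain ⟨u, v, huv⟩ := YDV_R_mul C f (YDV_R_mul C f hR hR) (YDV_R_sigma C f hR)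
    have hz' : z ^ 5 * (ct p : 𝓞 F) ^ 5 * (C.ι (star p.n * star q.n)) ^ 2 =
        C.ι u + C.ι v * (f : 𝓞 F) * C.w := by
      rw [← huv, ← pow_two]
      exact hz
    have h5 : (10 * z) ^ 5 = C.ι (a ^ 5 + 10 * a ^ 3 * b ^ 2 * W + 5 * a * b ^ 4 * W ^ 2) +
        C.ι (b * (5 * a ^ 4 + 10 * a ^ 2 * b ^ 2 * W + b ^ 4 * W ^ 2)) * C.w := by
      rw [hab]
      simp only [map_add, map_mul, map_pow, map_ofNat]
      generalize C.ι a = x
      generalize C.ι b = y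
      generalize C.ι W = c at hww
      linear_combination (10 * x ^ 3 * y ^ 2 + 10 * x ^ 2 * y ^ 3 * C.w + 5 * x * y ^ 4 * (C.w ^ 2 + c) +
        y ^ 5 * C.w * (C.w ^ 2 + c)) * hww
    set A := a ^ 5 + 10 * a ^ 3 * b ^ 2 * W + 5 * a * b ^ 4 * W ^ 2 with hA
    set B := b * (5 * a ^ 4 + 10 * a ^ 2 * b ^ 2 * W + b ^ 4 * W ^ 2) with hBd
    have h6 := C.ind (A * (ct p : OO) ^ 5 * (star p.n * star q.n) ^ 2 - 10 ^ 5 * u)
      (B * (ct p : OO) ^ 5 * (star p.n * star q.n) ^ 2 - 10 ^ 5 * v * (f : OO)) (by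
        simp only [map_sub, map_mul, map_pow, map_natCast, map_ofNat]
        simp only [map_mul] at hz'
        linear_combination (-((ct p : 𝓞 F) ^ 5 * (C.ι (star p.n) * C.ι (star q.n)) ^ 2)) * h5 +
          (10 : 𝓞 F) ^ 5 * hz')
    refine ⟨10 ^ 5 * v, ?_⟩
    have := h6.2
    linear_combination this
  · have h10 : 10 * C.σ (C.σ z) = C.ι a - C.ι b * C.w := by
      have h := congrArg (fun x => C.σ (C.σ x)) hab
      simp only [map_mul, map_add, map_ofNat, C.σι, star_star, YDV_ssw] at h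
      rw [h]; ring
    have h11 : a ^ 2 * (ct p : OO) ^ 2 - b ^ 2 * W * (ct p : OO) ^ 2 - 100 * (p.n * q.n) = 0 := by
      refine (C.ind _ 0 ?_).1
      simp only [map_sub, map_mul, map_pow, map_natCast, map_ofNat, map_zero]
      rw [← hww]
      simp only [map_mul] at hzz
      linear_combination (-((10 * C.σ (C.σ z)) * (ct p : 𝓞 F) ^ 2)) * hab -
        ((C.ι a + C.ι b * C.w) * (ct p : 𝓞 F) ^ 2) * h10 + 100 * hzz
    linear_combination h11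

lemma YDL_pow (hYVM : YVM_stmt) (π : OO) (hπ : Prime π) (x : OO) (m : ℕ) (hx : ¬ π ^ (m + 1) ∣ x) (n : ℕ) :
    ¬ π ^ (n * m + 1) ∣ x ^ n := by
  induction n with
  | zero =>
    rw [Nat.zero_mul, zero_add, pow_one, pow_zero]
    exact hπ.not_dvd_one
  | succ n ih =>
    rw [show (n + 1) * m + 1 = n * m + m + 1 by ring, pow_succ x n]
    exact (hYVM π hπ).2.1 _ _ _ _ ih hx

lemma YDL_prime (hYPL : YPL_stmt) (l : ℕ) (hl : l.Prime) (h5 : l ≠ 5) (π : OO) (hπ : Prime π) (hπl : π ∣ (l : OO)) :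
    ¬ π ^ 2 ∣ (l : OO) ∧ ∀ m : ℤ, π ∣ (m : OO) → (l : ℤ) ∣ m := by
  obtain ⟨S, _, h1, h2, _⟩ := hYPL l hl h5
  obtain ⟨π₁, hS, has⟩ := h2 π hπ hπl
  obtain ⟨_, _, h3, h4⟩ := h1 π₁ hS
  refine ⟨fun h => h3 ?_, fun m hm => h4 m (has.dvd_iff_dvd_left.1 hm)⟩
  exact (has.pow_pow (n := 2)).dvd_iff_dvd_left.1 h

lemma YDL_content (hYVM : YVM_stmt) (hYPL : YPL_stmt) (l : ℕ) (hl : l.Prime) (h5 : l ≠ 5) (π : OO) (hπ : Prime π)
    (hπl : π ∣ (l : OO)) (g : ℕ) (hg : 0 < g) : ¬ π ^ (g.factorization l + 1) ∣ (g : OO) := by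
  obtain ⟨h3, h4⟩ := YDL_prime hYPL l hl h5 π hπ hπl
  obtain ⟨g', hg', hgl⟩ : ∃ g' : ℕ, g = l ^ g.factorization l * g' ∧ ¬ l ∣ g' := by
    refine ⟨g / l ^ g.factorization l, ?_, ?_⟩
    · exact (Nat.ordProj_mul_ordCompl_eq_self g l).symm
    · exact Nat.not_dvd_ordCompl hl hg.ne'
  have hc : (g : OO) = (l : OO) ^ g.factorization l * (g' : OO) := by
    conv_lhs => rw [hg']
    push_cast
    ring
  rw [hc]
  have h6 : ¬ π ^ (g.factorization l * 1 + 1) ∣ (l : OO) ^ g.factorization l :=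
    YDL_pow hYVM π hπ (l : OO) 1 h3 _
  have h7 : ¬ π ^ (0 + 1) ∣ (g' : OO) := by
    rw [zero_add, pow_one]
    intro h
    have h8 := h4 (g' : ℤ) (by exact_mod_cast h)
    exact hgl (by exact_mod_cast h8)
  have h8 := (hYVM π hπ).2.1 _ _ _ _ h6 h7
  rw [mul_one, add_zero] at h8
  exact h8

theorem YDL (hTRA : TRA_stmt) (hTID : TID_stmt) (hGDV : GDV_stmt) (hYVM : YVM_stmt) (hYPL : YPL_stmt)
    (hYNV : YNV_stmt) : YDL_stmt := by
  intro D₀ F _ _ C p q f hD₀ hp hq hpD hqD hct z hz hzz a b hab l j hl h2 h5 hlf hj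
  obtain ⟨⟨v, hv⟩, hsq⟩ := YDL_ids C p q f z hz hzz a b hab
  have hg : 0 < ct p := (hGDV p hp D₀ f hD₀ hpD).2.2.2
  set c := (ct p).factorization l with hc
  have hlD : ∀ r : Pt, r.D = D₀ * (f : ℤ) ^ 2 → (l : ℤ) ^ (2 * j) ∣ r.D := by
    intro r hr
    rw [hr, mul_comm 2 j, pow_mul]
    refine Dvd.dvd.mul_left (pow_dvd_pow_of_dvd ?_ 2) _
    exact_mod_cast hlf
  have hvn : ∀ π : OO, Prime π → π ∣ (l : OO) →
      (¬ π ^ (2 * c + 1) ∣ p.n ∧ ¬ π ^ (2 * c + 1) ∣ star p.n) ∧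
      (¬ π ^ (2 * c + 1) ∣ q.n ∧ ¬ π ^ (2 * c + 1) ∣ star q.n) := by
    intro π hπ hπl
    refine ⟨hYNV p hp l j hl h2 h5 hj (hlD p hpD) π hπ hπl, ?_⟩
    have h := hYNV q hq l j hl h2 h5 (by rw [← hct]; exact hj) (hlD q hqD) π hπ hπl
    rw [← hct] at h
    exact h
  refine ⟨?_, ?_⟩
  · obtain ⟨S, _, h1, _, h3⟩ := hYPL l hl h5
    apply h3
    intro π hπS
    obtain ⟨hπ, hπl, _, _⟩ := h1 π hπS
    obtain ⟨⟨_, hp'⟩, ⟨_, hq'⟩⟩ := hvn π hπ hπl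
    have e1 := YDL_pow hYVM π hπ _ c (YDL_content hYVM hYPL l hl h5 π hπ hπl (ct p) hg) 5
    have e2 := YDL_pow hYVM π hπ _ (2 * c + 2 * c) ((hYVM π hπ).2.1 _ _ _ _ hp' hq') 2
    have e3 := (hYVM π hπ).2.1 _ _ _ _ e1 e2
    rw [show 5 * c + 2 * (2 * c + 2 * c) + 1 = 13 * c + 1 by ring] at e3
    refine (hYVM π hπ).1 _ _ j (13 * c) ?_ e3
    rw [hv]
    refine Dvd.dvd.mul_right ?_ _
    have h9 : (l : OO) ^ j ∣ (f : OO) := by
      rw [← Nat.cast_pow]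
      exact Nat.cast_dvd_cast hlf
    exact (pow_dvd_pow_of_dvd hπl j).trans h9
  · intro π hπ hπl hdiv
    obtain ⟨⟨hp', _⟩, ⟨hq', _⟩⟩ := hvn π hπ hπl
    obtain ⟨_, h4⟩ := YDL_prime hYPL l hl h5 π hπ hπl
    have e1 := (hYVM π hπ).2.1 _ _ _ _ hp' hq'
    have h100 : ¬ π ^ (0 + 1) ∣ (100 : OO) := by
      rw [zero_add, pow_one]
      intro h
      have h6 := h4 100 (by exact_mod_cast h)
      have h7 : l ∣ 100 := by exact_mod_cast h6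
      have h8 : l ∣ 2 ^ 2 * 5 ^ 2 := h7
      rcases (Nat.Prime.dvd_mul hl).1 h8 with h9 | h9
      · exact h2 ((Nat.prime_dvd_prime_iff_eq hl Nat.prime_two).1 (hl.dvd_of_dvd_pow h9))
      · exact h5 ((Nat.prime_dvd_prime_iff_eq hl Nat.prime_five).1 (hl.dvd_of_dvd_pow h9))
    have e2 := (hYVM π hπ).2.1 _ _ _ _ h100 e1
    apply e2
    rw [← hsq]
    have hgc : π ^ c ∣ (ct p : OO) := by
      have h6 : (l : OO) ^ c ∣ (ct p : OO) := by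
        rw [← Nat.cast_pow]
        exact Nat.cast_dvd_cast (Nat.ordProj_dvd (ct p) l)
      exact (pow_dvd_pow_of_dvd hπl c).trans h6
    have h7 : π ^ (2 * c + 1) * (π ^ c) ^ 2 ∣ (a ^ 2 - b ^ 2 * (-(w2 * (D₀ : OO)))) * (ct p : OO) ^ 2 :=
      mul_dvd_mul hdiv (pow_dvd_pow_of_dvd hgc 2)
    have h8 : π ^ (0 + (2 * c + 2 * c) + 1) = π ^ (2 * c + 1) * (π ^ c) ^ 2 := by
      rw [← pow_mul, ← pow_add]
      congr 1
      ring
    rw [h8]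
    exact h7

end Pool.Agent.RF
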